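import Mathlib
import Pool.Agent.R203.Xor

/-!
# MP_2e5000_an: a weakly mixing measure driven to the zero point mass by the XOR automaton
-/

set_option autoImplicit false
open MeasureTheory Filter Topology

namespace Pool.Agent.Results.MP_2e5000_an.WeaklyMixingXor

open Pool.Agent.Helper765.F2c841 (avg sum_shift avg_shift sum_blocks avg_boundary
  sum_mul_range avg_mono_abs avg_const ext_pi WM wm_of_mix)
open Pool.Agent.R203.Xor

/-- the two-neighbour XOR automaton -/
def F (x : ℤ → ZMod 2) : ℤ → ZMod 2 := fun i => x i + x (i + 1)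

/-- the left shift -/
def shift (x : ℤ → ZMod 2) : ℤ → ZMod 2 := fun i => x (i + 1)

/-! ### Broken windows -/

/-- `x` is not `2 ^ m`-periodic on `[0, 2 ^ (m + 1))` -/
def Br (m : ℕ) : Set Om := {x | ∃ i : ℕ, i < 2 ^ m ∧ x i ≠ x (i + 2 ^ m)}

noncomputable def ind (E : Set Om) : Om → ℝ := E.indicator (fun _ => (1 : ℝ))

lemma ind_nonneg (E : Set Om) (ω : Om) : 0 ≤ ind E ω := Set.indicator_nonneg (fun _ _ => zero_le_one) _
lemma ind_le_one (E : Set Om) (ω : Om) : ind E ω ≤ 1 := by
  unfold ind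
  by_cases h : ω ∈ E
  · rw [Set.indicator_of_mem h]
  · rw [Set.indicator_of_notMem h]; norm_num

lemma ind_mem {E : Set Om} {ω : Om} (h : ω ∈ E) : ind E ω = 1 := Set.indicator_of_mem h _
lemma ind_notMem {E : Set Om} {ω : Om} (h : ω ∉ E) : ind E ω = 0 := Set.indicator_of_notMem h _

/-- the event depends on the window `[-a, b]` -/
def Win (a b : ℕ) (E : Set Om) : Prop :=
  ∀ ω ω' : Om, (∀ x : ℤ, -(a : ℤ) ≤ x → x ≤ b → ω x = ω' x) → (ω ∈ E ↔ ω' ∈ E)

lemma Win.ind {a b : ℕ} {E : Set Om} (h : Win a b E) : WinF a b (ind E) := by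
  intro ω ω' hω
  by_cases h1 : ω ∈ E
  · rw [ind_mem h1, ind_mem ((h ω ω' hω).1 h1)]
  · rw [ind_notMem h1, ind_notMem (fun h2 => h1 ((h ω ω' hω).2 h2))]

lemma Br_win (m : ℕ) : Win 0 (2 ^ (m + 1)) (Br m) := by
  intro ω ω' h
  have key : ∀ i : ℕ, i < 2 ^ m → ω i = ω' i ∧ ω (i + 2 ^ m) = ω' (i + 2 ^ m) := by
    intro i hi
    have hi' : (i : ℤ) < 2 ^ m := by exact_mod_cast hi
    have h2 : ((2 ^ (m + 1) : ℕ) : ℤ) = 2 ^ m + 2 ^ m := by push_cast; ring
    have h3 : (0 : ℤ) < 2 ^ m := by positivity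
    constructor
    · apply h
      · simp
      · rw [h2]; linarith
    · apply h
      · have : (0 : ℤ) ≤ i := by positivity
        simp only [Nat.cast_zero, neg_zero]
        linarith
      · rw [h2]; linarith
  constructor
  · rintro ⟨i, hi, hne⟩
    refine ⟨i, hi, ?_⟩
    rw [← (key i hi).1, ← (key i hi).2]
    exact hne
  · rintro ⟨i, hi, hne⟩
    refine ⟨i, hi, ?_⟩
    rw [(key i hi).1, (key i hi).2]
    exact hne

lemma type_broken (k j m : ℕ) (hj : j < 2 ^ (k + 1)) (hm : AA k ≤ m) :
    avg (2 ^ AA (k + 1)) (fun t => ind (Br m) (fun x => W (k + 1) j (t + x))) ≤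
      (if m < aa k j ∧ bb k j < m + 1 + k then 1 else 0) + 1 / (2 : ℝ) ^ k := by
  have hpos : (0 : ℝ) < ((2 ^ AA (k + 1) : ℕ) : ℝ) := by positivity
  by_cases h1 : aa k j ≤ m
  · -- periodic
    have h0 : ∀ t : ℤ, ind (Br m) (fun x => W (k + 1) j (t + x)) = 0 := by
      intro t
      apply ind_notMem
      rintro ⟨i, -, hne⟩
      apply hne
      have e : (2 : ℤ) ^ m = 2 ^ aa k j * 2 ^ (m - aa k j) := by
        rw [← pow_add, Nat.add_sub_cancel' h1]
      show W (k + 1) j (t + i) = W (k + 1) j (t + (i + 2 ^ m))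
      rw [e, ← add_assoc, W_period_aa]
    have h2 : avg (2 ^ AA (k + 1)) (fun t => ind (Br m) (fun x => W (k + 1) j (t + x))) = 0 := by
      unfold avg
      simp only [h0, Finset.sum_const_zero, zero_div]
    rw [h2]
    positivity
  · by_cases h3 : bb k j < m + 1 + k
    · rw [if_pos ⟨by omega, h3⟩]
      have h4 : avg (2 ^ AA (k + 1)) (fun t => ind (Br m) (fun x => W (k + 1) j (t + x))) ≤ 1 := by
        unfold avg
        rw [div_le_one hpos]
        refine (Finset.sum_le_sum fun t _ => ind_le_one _ _).trans ?_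
        simp
      have h5 : (0 : ℝ) < 1 / (2 : ℝ) ^ k := by positivity
      linarith
    · rw [if_neg (by tauto), zero_add]
      have h5 := type_broken_aux k j m hj hm (by omega)
      exact h5
where
  type_broken_aux (k j m : ℕ) (hj : j < 2 ^ (k + 1)) (hm : AA k ≤ m) (h3 : m + 1 + k ≤ bb k j) :
      avg (2 ^ AA (k + 1)) (fun t => ind (Br m) (fun x => W (k + 1) j (t + x))) ≤
        1 / (2 : ℝ) ^ k := by
    have h4 : |avg (2 ^ AA (k + 1)) (fun t => ind (Br m) (fun x => W (k + 1) j (t + x))) -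
        avg (2 ^ AA (k + 1)) (fun _ => 0)| ≤
        (((0 : ℕ) : ℝ) + ((2 ^ (m + 1) : ℕ) : ℝ)) / ((2 ^ bb k j : ℕ) : ℝ) := by
      rw [full_dvd k j hj]
      apply avg_boundary _ _ 0 (2 ^ (m + 1)) (by positivity) (by positivity)
      · intro t g0 g1
        have e : ((2 ^ bb k j : ℕ) : ℤ) = 2 ^ bb k j := by push_cast; rfl
        rw [e] at g0 g1
        apply ind_notMem
        rintro ⟨i, hi, hne⟩
        apply hne
        have hi' : (i : ℤ) < 2 ^ m := by exact_mod_cast hi
        have hi0 : (0 : ℤ) ≤ i := by positivity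
        have h2 : ((2 ^ (m + 1) : ℕ) : ℤ) = 2 ^ m + 2 ^ m := by push_cast; ring
        have hp : (0 : ℤ) < 2 ^ m := by positivity
        rw [h2] at g1
        simp only [Nat.cast_zero] at g0
        show W (k + 1) j (t + i) = W (k + 1) j (t + (i + 2 ^ m))
        rw [W_in_run k j t i (by linarith) (by linarith),
          W_in_run k j t (i + 2 ^ m) (by linarith) (by linarith)]
        have e2 : (2 : ℤ) ^ m = 2 ^ AA k * 2 ^ (m - AA k) := by
          rw [← pow_add, Nat.add_sub_cancel' hm]
        rw [e2, ← add_assoc]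
        exact (st_period (seq_lt (run_lt k j t)) _ _).symm
      · intro t
        rw [sub_zero, abs_of_nonneg (ind_nonneg _ _)]
        exact ind_le_one _ _
    rw [avg_const _ (by positivity), sub_zero] at h4
    refine (le_abs_self _).trans (h4.trans ?_)
    have h5 : (2 : ℝ) ^ bb k j = 2 ^ (m + 1) * (2 ^ k * 2 ^ (bb k j - (m + 1 + k))) := by
      rw [← pow_add, ← pow_add]
      congr 1
      omega
    push_cast
    rw [h5, zero_add, div_le_div_iff₀ (by positivity) (by positivity)]
    have h6 : (1 : ℝ) ≤ 2 ^ (bb k j - (m + 1 + k)) := one_le_pow₀ (by norm_num)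
    have h7 : (0 : ℝ) < 2 ^ (m + 1) * 2 ^ k := by positivity
    nlinarith

lemma fr_broken (k m : ℕ) (hm : AA k ≤ m) : fr (k + 1) (ind (Br m)) ≤ 3 / (2 : ℝ) ^ (k + 1) := by
  rw [fr_types]
  apply div_le_div_of_nonneg_right _ (by positivity)
  refine (Finset.sum_le_sum fun j hj => type_broken k j m (Finset.mem_range.1 hj) hm).trans ?_
  rw [Finset.sum_add_distrib, Finset.sum_boole, Finset.sum_const, Finset.card_range, nsmul_eq_mul]
  have h1 : ((Finset.range (2 ^ (k + 1))).filter
      (fun j => m < aa k j ∧ bb k j < m + 1 + k)).card ≤ 1 := by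
    rw [Finset.card_le_one]
    have key : ∀ i j : ℕ, i < j → m < aa k i → ¬ bb k j < m + 1 + k := by
      intro i j hij hi hj
      have h2 : bb k (i + 1) ≤ bb k j := by
        rw [bb, bb]
        have : (i + 1) * LL k ≤ j * LL k := Nat.mul_le_mul_right _ hij
        omega
      rw [bb_succ] at h2
      omega
    intro i hi j hj
    obtain ⟨-, hi1, hi2⟩ := Finset.mem_filter.1 hi
    obtain ⟨-, hj1, hj2⟩ := Finset.mem_filter.1 hj
    rcases lt_trichotomy i j with h | h | h
    · exact absurd hj2 (key i j h hi1)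
    · exact h
    · exact absurd hi2 (key j i h hj1)
  have h2 : (((Finset.range (2 ^ (k + 1))).filter
      (fun j => m < aa k j ∧ bb k j < m + 1 + k)).card : ℝ) ≤ 1 := by exact_mod_cast h1
  have h3 : ((2 ^ (k + 1) : ℕ) : ℝ) * (1 / (2 : ℝ) ^ k) = 2 := by
    push_cast
    rw [pow_succ]
    field_simp
  rw [h3]
  linarith

/-! ### The limit measure -/

lemma Win_compl {a b : ℕ} {E : Set Om} (h : Win a b E) : Win a b Eᶜ := by
  intro ω ω' hω
  rw [Set.mem_compl_iff, Set.mem_compl_iff, h ω ω' hω]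

lemma Win_open {a b : ℕ} {E : Set Om} (h : Win a b E) : IsOpen E := by
  rw [isOpen_iff_forall_mem_open]
  intro ω hω
  refine ⟨⋂ x ∈ Set.Icc (-(a : ℤ)) b, (fun ω' : Om => ω' x) ⁻¹' {ω x}, ?_, ?_, ?_⟩
  · intro ω' hω'
    rw [Set.mem_iInter₂] at hω'
    exact (h ω' ω (fun x hx hx' => hω' x ⟨hx, hx'⟩)).2 hω
  · apply (Set.finite_Icc (-(a : ℤ)) b).isOpen_biInter
    intro x _
    exact (isOpen_discrete _).preimage (continuous_apply x)
  · rw [Set.mem_iInter₂]
    intro x _
    rfl

lemma Win_clopen {a b : ℕ} {E : Set Om} (h : Win a b E) : IsClopen E :=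
  ⟨⟨Win_open (Win_compl h)⟩, Win_open h⟩

lemma Win_meas {a b : ℕ} {E : Set Om} (h : Win a b E) : MeasurableSet E :=
  (Win_clopen h).isOpen.measurableSet

lemma shift_cont : Continuous shift := continuous_pi (fun n => continuous_apply (n + 1))

/-- uniform measure on the states -/
noncomputable def emp (k : ℕ) : Measure Om :=
  (NN k : ENNReal)⁻¹ • ∑ s ∈ Finset.range (NN k), Measure.dirac (st k s)

lemma emp_apply (k : ℕ) {S : Set Om} (hS : MeasurableSet S) :
    emp k S = (NN k : ENNReal)⁻¹ * ∑ s ∈ Finset.range (NN k), S.indicator 1 (st k s) := by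
  unfold emp
  rw [Measure.smul_apply, Measure.finsetSum_apply, smul_eq_mul]
  congr 1
  apply Finset.sum_congr rfl
  intro t _
  exact Measure.dirac_apply' _ hS

lemma emp_prob (k : ℕ) : IsProbabilityMeasure (emp k) := by
  constructor
  rw [emp_apply k MeasurableSet.univ]
  simp only [Set.indicator_univ, Pi.one_apply, Finset.sum_const, Finset.card_range, nsmul_eq_mul,
    mul_one]
  exact ENNReal.inv_mul_cancel (by exact_mod_cast (NN_pos k).ne') (ENNReal.natCast_ne_top _)

lemma emp_real (k : ℕ) {S : Set Om} (hS : MeasurableSet S) : (emp k).real S = fr k (ind S) := by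
  unfold Measure.real fr
  rw [emp_apply k hS, ENNReal.toReal_mul, ENNReal.toReal_inv, ENNReal.toReal_natCast,
    ENNReal.toReal_sum, div_eq_inv_mul]
  · congr 1
    apply Finset.sum_congr rfl
    intro t _
    by_cases h : st k t ∈ S
    · rw [ind_mem h, Set.indicator_of_mem h]; simp
    · rw [ind_notMem h, Set.indicator_of_notMem h]; simp
  · intro t _
    by_cases h : st k t ∈ S
    · simp [Set.indicator_of_mem h]
    · simp [Set.indicator_of_notMem h]

lemma emp_map (k : ℕ) : (emp k).map shift = emp k := by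
  have := emp_prob k
  ext S hS
  rw [Measure.map_apply shift_cont.measurable hS]
  have h1 := emp_real k (shift_cont.measurable hS)
  have h2 := emp_real k hS
  have h3 : fr k (ind (shift ⁻¹' S)) = fr k (ind S) := by
    rw [← fr_shift k (ind S) 1]
    congr 1
    funext ω
    have e : (fun x => ω (1 + x)) = shift ω := by
      funext x
      rw [add_comm]; rfl
    rw [e]
    rfl
  have h4 : (emp k).real (shift ⁻¹' S) = (emp k).real S := by rw [h1, h2, h3]
  exact (measureReal_eq_measureReal_iff).1 h4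

theorem limit_measure : ∃ P : Measure Om, IsProbabilityMeasure P ∧ MeasurePreserving shift P P ∧
      ∀ k a b (E : Set Om), Win a b E →
        |P.real E - fr k (ind E)| ≤ 2 * ((a : ℝ) + b) / (2 : ℝ) ^ (AA k + (k + 1)) := by
  have htel : ∀ a b (E : Set Om), Win a b E → ∀ j k : ℕ,
      |fr (j + k) (ind E) - fr j (ind E)| ≤
        2 * ((a : ℝ) + b) / (2 : ℝ) ^ (AA j + (j + 1)) -
          2 * ((a : ℝ) + b) / (2 : ℝ) ^ (AA (j + k) + (j + k + 1)) := by
    intro a b E hE j k
    induction k with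
    | zero => simp
    | succ k ih =>
      have h1 := fr_step (j + k) a b (ind E) hE.ind (ind_nonneg E) (ind_le_one E)
      have h2 : (2 : ℝ) * ((a : ℝ) + b) / (2 : ℝ) ^ (AA (j + k + 1) + (j + k + 1 + 1)) ≤
          ((a : ℝ) + b) / (2 : ℝ) ^ (AA (j + k) + (j + k + 1)) := by
        rw [div_le_div_iff₀ (by positivity) (by positivity)]
        have h3 : (2 : ℝ) * (2 : ℝ) ^ (AA (j + k) + (j + k + 1)) ≤
            (2 : ℝ) ^ (AA (j + k + 1) + (j + k + 1 + 1)) := by
          rw [← pow_succ']
          apply pow_le_pow_right₀ (by norm_num)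
          rw [AA_succ]
          omega
        have h4 : (0 : ℝ) ≤ (a : ℝ) + b := by positivity
        nlinarith
      have h5 := abs_add_le (fr (j + k + 1) (ind E) - fr (j + k) (ind E))
          (fr (j + k) (ind E) - fr j (ind E))
      rw [sub_add_sub_cancel] at h5
      have h6 : (2 : ℝ) * ((a : ℝ) + b) / (2 : ℝ) ^ (AA (j + k) + (j + k + 1)) =
        ((a : ℝ) + b) / (2 : ℝ) ^ (AA (j + k) + (j + k + 1)) +
        ((a : ℝ) + b) / (2 : ℝ) ^ (AA (j + k) + (j + k + 1)) := by ring
      rw [show j + (k + 1) = j + k + 1 by ring]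
      linarith
  have htel' : ∀ a b (E : Set Om), Win a b E → ∀ j i : ℕ, j ≤ i →
      |fr i (ind E) - fr j (ind E)| ≤ 2 * ((a : ℝ) + b) / (2 : ℝ) ^ (AA j + (j + 1)) := by
    intro a b E hE j i hji
    obtain ⟨k, rfl⟩ := Nat.exists_eq_add_of_le hji
    have h1 := htel a b E hE j k
    have h2 : (0 : ℝ) ≤ 2 * ((a : ℝ) + b) / (2 : ℝ) ^ (AA (j + k) + (j + k + 1)) := by
      positivity
    linarith
  let _ : MetricSpace Om := TopologicalSpace.metrizableSpaceMetric Om
  have hcont : ∀ S : Set Om, IsClopen S →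
      Continuous (fun μ : ProbabilityMeasure Om => μ S) := by
    intro S hS
    rw [continuous_iff_continuousAt]
    intro μ
    exact ProbabilityMeasure.tendsto_measure_of_isClopen_of_tendsto Filter.tendsto_id hS
  let e : ℕ → ProbabilityMeasure Om := fun j => ⟨emp j, emp_prob j⟩
  let U : Ultrafilter ℕ := Filter.hyperfilter ℕ
  obtain ⟨P, -, hP⟩ := (isCompact_univ (X := ProbabilityMeasure Om)).ultrafilter_le_nhds
    (U.map e) (by simp)
  have hP' : Tendsto e U (𝓝 P) := hP
  refine ⟨(P : Measure Om), inferInstance, ?_, ?_⟩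
  · refine ⟨shift_cont.measurable, ?_⟩
    have h1 : Tendsto (fun j => (e j).map shift_cont.measurable.aemeasurable) U
        (𝓝 (P.map shift_cont.measurable.aemeasurable)) :=
      ((ProbabilityMeasure.continuous_map shift_cont).tendsto P).comp hP'
    have h2 : (fun j => (e j).map shift_cont.measurable.aemeasurable) = e := by
      funext j
      apply Subtype.ext
      exact emp_map j
    rw [h2] at h1
    have h3 := tendsto_nhds_unique h1 hP'
    exact congrArg (fun ν : ProbabilityMeasure Om => (ν : Measure Om)) h3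
  · intro j a b E hE
    have hcl := Win_clopen hE
    have h1 : Tendsto (fun i => ((e i E : NNReal) : ℝ)) U (𝓝 ((P E : NNReal) : ℝ)) :=
      (NNReal.continuous_coe.tendsto _).comp (((hcont E hcl).tendsto P).comp hP')
    have h2 : ∀ i, ((e i E : NNReal) : ℝ) = fr i (ind E) := by
      intro i
      rw [← emp_real i hcl.isOpen.measurableSet]
      rfl
    have h3 : ((P E : NNReal) : ℝ) = (P : Measure Om).real E := rfl
    simp only [h2] at h1
    rw [h3] at h1
    have h4 : Tendsto (fun i => |fr i (ind E) - fr j (ind E)|) U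
        (𝓝 |(P : Measure Om).real E - fr j (ind E)|) :=
      (h1.sub_const _).abs
    refine le_of_tendsto h4 ?_
    have h5 : ∀ᶠ i in (atTop : Filter ℕ), |fr i (ind E) - fr j (ind E)| ≤
        2 * ((a : ℝ) + b) / (2 : ℝ) ^ (AA j + (j + 1)) := by
      filter_upwards [eventually_ge_atTop j] with i hi
      exact htel' a b E hE j i hi
    rw [← Nat.cofinite_eq_atTop] at h5
    exact Filter.hyperfilter_le_cofinite h5

/-! ### Mixing -/

lemma Win_mono {a b a' b' : ℕ} (ha : a ≤ a') (hb : b ≤ b') {E : Set Om}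
    (h : Win a b E) : Win a' b' E := by
  intro ω ω' hω
  apply h
  intro x h0 h1
  apply hω
  · have : (a : ℤ) ≤ a' := by exact_mod_cast ha
    linarith
  · have : (b : ℤ) ≤ b' := by exact_mod_cast hb
    linarith

lemma Win_inter {a b : ℕ} {E G : Set Om} (hE : Win a b E) (hG : Win a b G) :
    Win a b (E ∩ G) := by
  intro ω ω' h
  rw [Set.mem_inter_iff, Set.mem_inter_iff, hE ω ω' h, hG ω ω' h]

lemma Win_shift {a b : ℕ} {E : Set Om} (h : Win a b E) (k : ℕ) :
    Win a (b + k) ((fun ω x => ω (x + k)) ⁻¹' E) := by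
  intro ω ω' hω
  apply h
  intro x h0 h1
  apply hω
  · have : (0 : ℤ) ≤ k := by positivity
    linarith
  · push_cast
    linarith

lemma win_pi : IsPiSystem {E : Set Om | ∃ a b, Win a b E} := by
  rintro E ⟨a, b, hE⟩ G ⟨c, d, hG⟩ _
  exact ⟨max a c, max b d, Win_inter (Win_mono (le_max_left _ _) (le_max_left _ _) hE)
    (Win_mono (le_max_right _ _) (le_max_right _ _) hG)⟩

lemma win_gen : (MeasurableSpace.pi : MeasurableSpace Om) =
    MeasurableSpace.generateFrom {E : Set Om | ∃ a b, Win a b E} := by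
  apply le_antisymm
  · apply iSup_le
    intro x
    rintro s ⟨u, -, rfl⟩
    apply MeasurableSpace.measurableSet_generateFrom
    refine ⟨x.natAbs, x.natAbs, ?_⟩
    intro ω ω' hω
    have : ω x = ω' x := hω x (by omega) (by omega)
    show ω x ∈ u ↔ ω' x ∈ u
    rw [this]
  · apply MeasurableSpace.generateFrom_le
    rintro E ⟨a, b, hE⟩
    exact Win_meas hE

/-- the shift as an equivalence -/
def shE : Om ≃ᵐ Om where
  toFun := shift
  invFun ω x := ω (x - 1)
  left_inv ω := by funext x; simp [shift]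
  right_inv ω := by funext x; simp [shift]
  measurable_toFun := measurable_pi_lambda _ (fun x => measurable_pi_apply _)
  measurable_invFun := measurable_pi_lambda _ (fun x => measurable_pi_apply _)

lemma shift_iter (k : ℕ) (ω : Om) : shift^[k] ω = fun x => ω (x + k) := by
  induction k generalizing ω with
  | zero => funext x; simp
  | succ k ih =>
    rw [Function.iterate_succ_apply, ih]
    funext x
    show ω (x + k + 1) = _
    congr 1
    push_cast
    ring

lemma nn_le (k : ℕ) : 2 ^ (k + 2) * nn k ≤ 2 ^ AA (k + 1) := SS_le k (2 ^ (k + 1))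

theorem wm {P : Measure Om} (hP : IsProbabilityMeasure P) (hinv : MeasurePreserving shift P P)
    (hest : ∀ k a b (E : Set Om), Win a b E →
        |P.real E - fr k (ind E)| ≤ 2 * ((a : ℝ) + b) / (2 : ℝ) ^ (AA k + (k + 1))) :
    WM P shE := by
  have hinv' : MeasurePreserving shE P P := hinv
  have hit : ∀ k : ℕ, MeasurePreserving ((⇑shE)^[k]) P P := fun k => hinv'.iterate k
  have hmain : ∀ A B : Set Om, MeasurableSet A → MeasurableSet B →
      Tendsto (fun N : ℕ => ((({N} : Finset ℕ)).card : ℝ)⁻¹ *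
        ∑ i ∈ ({N} : Finset ℕ), |P.real ((⇑shE)^[nn i] ⁻¹' A ∩ B) - P.real A * P.real B|)
        atTop (𝓝 0) := by
    intro A B hA hB
    refine ext_pi P (fun i => (⇑shE)^[nn i]) (fun i => hit _) (fun N => {N})
      {E | ∃ a b, Win a b E} win_pi win_gen ?_ A B hA hB
    rintro A ⟨a0, b0, hA0⟩ B ⟨a1, b1, hB1⟩
    obtain ⟨a, b, hA, hB⟩ : ∃ a b, Win a b A ∧ Win a b B :=
      ⟨max a0 a1, max b0 b1, Win_mono (le_max_left _ _) (le_max_left _ _) hA0,
        Win_mono (le_max_right _ _) (le_max_right _ _) hB1⟩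
    have hbound : ∀ k : ℕ, |P.real ((⇑shE)^[nn k] ⁻¹' A ∩ B) - P.real A * P.real B| ≤
        (7 * ((a : ℝ) + b) + 3) / (2 : ℝ) ^ k := by
      intro k
      have hset : (⇑shE)^[nn k] ⁻¹' A = (fun ω x => ω (x + nn k)) ⁻¹' A := by
        ext ω
        show shift^[nn k] ω ∈ A ↔ (fun x => ω (x + nn k)) ∈ A
        rw [shift_iter]
      rw [hset, Set.inter_comm]
      have hw : Win a (b + nn k) (B ∩ (fun ω x => ω (x + nn k)) ⁻¹' A) :=
        Win_inter (Win_mono le_rfl (by omega) hB) (Win_shift hA (nn k))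
      have h1 := fr_mix k a b (ind B) (ind A) hB.ind hA.ind (ind_nonneg B) (ind_le_one B)
        (ind_nonneg A) (ind_le_one A)
      have hprod : (fun ω : Om => ind B ω * ind A (fun x => ω (x + nn k))) =
          ind (B ∩ (fun ω x => ω (x + nn k)) ⁻¹' A) := by
        funext ω
        by_cases g1 : ω ∈ B
        · by_cases g2 : (fun x => ω (x + nn k)) ∈ A
          · rw [ind_mem g1, ind_mem g2, ind_mem (show _ ∈ B ∩ _ from ⟨g1, g2⟩), mul_one]
          · rw [ind_notMem g2, mul_zero, ind_notMem]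
            exact fun h3 => g2 h3.2
        · rw [ind_notMem g1, zero_mul, ind_notMem]
          exact fun h3 => g1 h3.1
      rw [hprod] at h1
      have h2 := hest (k + 1) a (b + nn k) _ hw
      have h3 := hest k a b A hA
      have h4 := hest k a b B hB
      have hk : (0 : ℝ) < (2 : ℝ) ^ k := by positivity
      have hab : (0 : ℝ) ≤ (a : ℝ) + b := by positivity
      have h5 : 2 * ((a : ℝ) + ((b + nn k : ℕ) : ℝ)) / (2 : ℝ) ^ (AA (k + 1) + (k + 1 + 1)) ≤
          (2 * ((a : ℝ) + b) + 2) / (2 : ℝ) ^ k := by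
        have hg : (2 : ℝ) ^ (k + 2) * nn k ≤ (2 : ℝ) ^ AA (k + 1) := by exact_mod_cast nn_le k
        rw [div_le_div_iff₀ (by positivity) hk]
        push_cast
        have e1 : (2 : ℝ) ^ (AA (k + 1) + (k + 1 + 1)) = 2 ^ AA (k + 1) * (2 ^ k * 4) := by
          rw [pow_add, show k + 1 + 1 = k + 2 by ring, pow_add 2 k 2]; norm_num
        have e2 : (2 : ℝ) ^ (k + 2) = 2 ^ k * 4 := by rw [pow_add]; norm_num
        rw [e1]
        rw [e2] at hg
        have h6 : (1 : ℝ) ≤ 2 ^ AA (k + 1) := one_le_pow₀ (by norm_num)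
        have h7 : (1 : ℝ) ≤ 2 ^ k := one_le_pow₀ (by norm_num)
        have hn0 : (0 : ℝ) ≤ nn k := by positivity
        have h8 : ((a : ℝ) + b) * 2 ^ k ≤ ((a : ℝ) + b) * (2 ^ AA (k + 1) * (2 ^ k * 4)) := by
          apply mul_le_mul_of_nonneg_left _ hab
          nlinarith
        have h9 : (nn k : ℝ) * 2 ^ k ≤ 2 ^ AA (k + 1) * (2 ^ k * 4) := by
          nlinarith
        nlinarith
      have hpk : (2 : ℝ) ^ k ≤ (2 : ℝ) ^ (AA k + (k + 1)) :=
        pow_le_pow_right₀ (by norm_num) (by omega)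
      have hsmall : 2 * ((a : ℝ) + b) / (2 : ℝ) ^ (AA k + (k + 1)) ≤
          2 * ((a : ℝ) + b) / (2 : ℝ) ^ k :=
        div_le_div_of_nonneg_left (by positivity) hk hpk
      have h6 : |fr k (ind B) * fr k (ind A) - P.real A * P.real B| ≤
          2 * (2 * ((a : ℝ) + b) / (2 : ℝ) ^ k) := by
        have hA0 : 0 ≤ P.real A := measureReal_nonneg
        have hA1 : P.real A ≤ 1 := measureReal_le_one
        have := emp_prob k
        have hf0 : 0 ≤ fr k (ind B) := by
          rw [← emp_real k (Win_meas hB)]; exact measureReal_nonneg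
        have hf1 : fr k (ind B) ≤ 1 := by
          rw [← emp_real k (Win_meas hB)]; exact measureReal_le_one
        have e : fr k (ind B) * fr k (ind A) - P.real A * P.real B = fr k (ind B) *
              (fr k (ind A) - P.real A) + P.real A * (fr k (ind B) - P.real B) := by ring
        rw [e]
        refine (abs_add_le _ _).trans ?_
        rw [abs_mul, abs_mul, abs_of_nonneg hf0, abs_of_nonneg hA0, abs_sub_comm _ (P.real A),
          abs_sub_comm _ (P.real B)]
        have g1 := mul_le_mul hf1 (h3.trans hsmall) (abs_nonneg _) zero_le_one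
        have g2 := mul_le_mul hA1 (h4.trans hsmall) (abs_nonneg _) zero_le_one
        linarith
      have t1 := abs_sub_le (P.real (B ∩ (fun ω x => ω (x + nn k)) ⁻¹' A))
        (fr (k + 1) (ind (B ∩ (fun ω x => ω (x + nn k)) ⁻¹' A))) (P.real A * P.real B)
      have t2 := abs_sub_le (fr (k + 1) (ind (B ∩ (fun ω x => ω (x + nn k)) ⁻¹' A)))
        (fr k (ind B) * fr k (ind A)) (P.real A * P.real B)
      have e9 : (7 * ((a : ℝ) + b) + 3) / (2 : ℝ) ^ k = (2 * ((a : ℝ) + b) + 2) / (2 : ℝ) ^ k +
          ((a : ℝ) + b + 1) / (2 : ℝ) ^ k + 2 * (2 * ((a : ℝ) + b) / (2 : ℝ) ^ k) := by ring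
      rw [e9]
      linarith
    have hlim : Tendsto (fun k : ℕ => (7 * ((a : ℝ) + b) + 3) / (2 : ℝ) ^ k) atTop (𝓝 0) :=
      Tendsto.div_atTop tendsto_const_nhds (tendsto_pow_atTop_atTop_of_one_lt (by norm_num))
    have := squeeze_zero (fun j => abs_nonneg _) hbound hlim
    simpa using this
  apply wm_of_mix P shE hinv' nn
  intro A B hA hB
  have h1 := hmain A B hA hB
  simp only [Finset.card_singleton, Nat.cast_one, inv_one, one_mul, Finset.sum_singleton] at h1
  rw [tendsto_iff_norm_sub_tendsto_zero]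
  simpa [Real.norm_eq_abs] using h1

/-! ### The automaton -/

lemma F_cont : Continuous F :=
  continuous_pi fun i => (continuous_apply i).add (continuous_apply (i + 1))

lemma F_pow_two (m : ℕ) (x : Om) (i : ℤ) : F^[2 ^ m] x i = x i + x (i + 2 ^ m) := by
  induction m generalizing x i with
  | zero => simp [F]
  | succ m ih =>
    rw [pow_succ, Nat.mul_two, Function.iterate_add_apply, ih, ih, ih]
    have h2 : x (i + 2 ^ m) + x (i + 2 ^ m) = 0 := CharTwo.add_self_eq_zero _
    have e : i + 2 ^ m + 2 ^ m = i + 2 ^ (m + 1) := by ring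
    rw [e]
    linear_combination h2

/-- zeros propagate -/
lemma F_zero (l : ℕ) (y : Om) (i : ℤ) (h : ∀ i' : ℤ, i ≤ i' → i' ≤ i + l → y i' = 0) :
    F^[l] y i = 0 := by
  induction l generalizing y i with
  | zero => exact h i le_rfl (by simp)
  | succ l ih =>
    rw [Function.iterate_succ_apply]
    apply ih
    intro i' h1 h2
    show y i' + y (i' + 1) = 0
    rw [h i' h1 (by push_cast; linarith), h (i' + 1) (by linarith) (by push_cast; linarith),
      add_zero]

lemma F_unbroken (m n : ℕ) (h1 : 2 ^ m ≤ n) (h2 : n < 2 ^ (m + 1)) (x : Om) (hx : x ∉ Br m) :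
    F^[n] x 0 = 0 := by
  obtain ⟨l, rfl⟩ := Nat.exists_eq_add_of_le' h1
  rw [Function.iterate_add_apply]
  apply F_zero
  intro i h3 h4
  have hi : i.toNat < 2 ^ m := by
    rw [pow_succ] at h2
    omega
  rw [F_pow_two]
  have h5 : x i = x (i + 2 ^ m) := by
    by_contra hne
    apply hx
    refine ⟨i.toNat, hi, ?_⟩
    rw [Int.toNat_of_nonneg h3]
    exact hne
  rw [← h5]
  exact CharTwo.add_self_eq_zero _

lemma F_shift (n k : ℕ) (x : Om) (i : ℤ) : F^[n] (shift^[k] x) i = F^[n] x (i + k) := by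
  have hc : ∀ y, F (shift y) = shift (F y) := fun y => rfl
  have h1 : Function.Commute F shift := hc
  have h2 := (h1.iterate_iterate n k) x
  rw [h2, shift_iter]

/-- **MP_2e5000_an, Q1: yes.** -/
theorem result : ∃ μ : Measure (ℤ → ZMod 2), IsProbabilityMeasure μ ∧
    MeasurePreserving shift μ μ ∧
    (∀ A B : Set (ℤ → ZMod 2), MeasurableSet A → MeasurableSet B →
      Tendsto (fun N : ℕ => 1 / (N : ℝ) * ∑ n ∈ Finset.range N,
        |μ.real (A ∩ shift^[n] ⁻¹' B) - μ.real A * μ.real B|) atTop (𝓝 0)) ∧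
    μ ≠ Measure.dirac 0 ∧
    ∀ f : (ℤ → ZMod 2) → ℝ, Continuous f →
      Tendsto (fun n : ℕ => ∫ x, f x ∂(μ.map F^[n])) atTop (𝓝 (f 0)) := by
  obtain ⟨P, hP, hinv, hest⟩ := limit_measure
  refine ⟨P, hP, hinv, ?_, ?_, ?_⟩
  · intro A B hA hB
    have h := wm hP hinv hest B A hB hA
    refine h.congr fun N => ?_
    rw [one_div]
    congr 1
    refine Finset.sum_congr rfl fun n _ => ?_
    rw [Set.inter_comm, mul_comm]
    rfl
  · -- the density of ones is one half
    intro hcon
    have hw : Win 0 0 {x : Om | x 0 = 1} := by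
      intro ω ω' h
      have := h 0 (by simp) (by simp)
      show ω 0 = 1 ↔ ω' 0 = 1
      rw [this]
    have h1 := hest 0 0 0 _ hw
    have h2 : P.real {x : Om | x 0 = 1} = 0 := by
      rw [hcon, measureReal_def, Measure.dirac_apply' _ (Win_meas hw), Set.indicator_of_notMem]
      · rfl
      · show ¬ ((0 : ZMod 2) = 1)
        decide
    have h3 : fr 0 (ind {x : Om | x 0 = 1}) = 1 / 2 := by
      have hN : NN 0 = 2 := rfl
      unfold fr
      rw [hN, Finset.sum_range_succ, Finset.sum_range_one]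
      have g0 : st 0 0 ∉ {x : Om | x 0 = 1} := by
        show ¬ (((0 : ℤ) + (0 : ℕ) : ℤ) : ZMod 2) = 1
        decide
      have g1 : st 0 1 ∈ {x : Om | x 0 = 1} := by
        show (((0 : ℤ) + (1 : ℕ) : ℤ) : ZMod 2) = 1
        decide
      rw [ind_notMem g0, ind_mem g1]
      norm_num
    rw [h2, h3] at h1
    norm_num at h1
  · -- convergence
    have hBr : ∀ K : ℕ, ∀ m : ℕ, AA K ≤ m → P.real (Br m) ≤ 2 / (2 : ℝ) ^ K := by
      intro K m hm
      obtain ⟨k, hKk, hk1, hk2⟩ : ∃ k, K ≤ k ∧ AA k ≤ m ∧ m < AA (k + 1) := by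
        have hex : ∃ l, m < AA (K + l) := by
          have hgrow : ∀ l, l ≤ AA (K + l) := by
            intro l
            induction l with
            | zero => exact Nat.zero_le _
            | succ l ih => rw [← add_assoc, AA_succ]; omega
          exact ⟨m + 1, lt_of_lt_of_le (Nat.lt_succ_self m) (hgrow (m + 1))⟩
        classical
        have h1 := Nat.find_spec hex
        have h2 : Nat.find hex ≠ 0 := by
          intro h0
          rw [h0, add_zero] at h1
          omega
        obtain ⟨l, hl⟩ := Nat.exists_eq_succ_of_ne_zero h2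
        refine ⟨K + l, by omega, ?_, ?_⟩
        · have := Nat.find_min hex (m := l) (by omega)
          omega
        · rw [hl] at h1
          exact h1
      have h1 := hest (k + 1) 0 (2 ^ (m + 1)) _ (Br_win m)
      have h2 := fr_broken k m hk1
      have h3 : 2 * (((0 : ℕ) : ℝ) + ((2 ^ (m + 1) : ℕ) : ℝ)) /
          (2 : ℝ) ^ (AA (k + 1) + (k + 1 + 1)) ≤ 1 / (2 : ℝ) ^ (k + 1) := by
        rw [div_le_div_iff₀ (by positivity) (by positivity)]
        push_cast
        have h4 : (2 : ℝ) ^ (m + 1) ≤ 2 ^ AA (k + 1) := pow_le_pow_right₀ (by norm_num) hk2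
        have h5 : (2 : ℝ) ^ (AA (k + 1) + (k + 1 + 1)) = 2 ^ AA (k + 1) * (2 ^ (k + 1) * 2) := by
          rw [pow_add, pow_succ 2 (k + 1)]
        rw [h5]
        have h6 : (0 : ℝ) < 2 ^ (k + 1) := by positivity
        nlinarith
      have h4 : (4 : ℝ) / 2 ^ (k + 1) ≤ 2 / (2 : ℝ) ^ K := by
        rw [pow_succ, div_le_div_iff₀ (by positivity) (by positivity)]
        have : (2 : ℝ) ^ K ≤ 2 ^ k := pow_le_pow_right₀ (by norm_num) hKk
        nlinarith
      have h5 := (abs_le.1 h1).2
      have h6 : (4 : ℝ) / 2 ^ (k + 1) = 3 / 2 ^ (k + 1) + 1 / 2 ^ (k + 1) := by ring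
      linarith
    -- the probability of a nonzero symbol
    have hz : ∀ K : ℕ, ∃ n0 : ℕ, ∀ n ≥ n0, P.real {x : Om | F^[n] x 0 ≠ 0} ≤ 2 / (2 : ℝ) ^ K := by
      intro K
      refine ⟨2 ^ AA K, fun n hn => ?_⟩
      have hn0 : n ≠ 0 := by
        have : 0 < 2 ^ AA K := by positivity
        omega
      have h1 : 2 ^ Nat.log 2 n ≤ n := Nat.pow_log_le_self 2 hn0
      have h2 : n < 2 ^ (Nat.log 2 n + 1) := Nat.lt_pow_succ_log_self (by norm_num) n
      have h3 : AA K ≤ Nat.log 2 n := (Nat.le_log_iff_pow_le (by norm_num) hn0).2 hn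
      refine le_trans (measureReal_mono ?_) (hBr K _ h3)
      intro x hx
      by_contra hcon
      exact hx (F_unbroken _ n h1 h2 x hcon)
    have hzi : ∀ (n : ℕ) (i : ℤ), P.real {x : Om | F^[n] x i ≠ 0} =
        P.real {x : Om | F^[n] x 0 ≠ 0} := by
      have hmeas : ∀ (n : ℕ) (i : ℤ), MeasurableSet {x : Om | F^[n] x i ≠ 0} := by
        intro n i
        have hc : Continuous fun x : Om => F^[n] x i := (continuous_apply i).comp (F_cont.iterate n)
        exact (isOpen_ne_fun hc continuous_const).measurableSet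
      have hstep : ∀ (n : ℕ) (i : ℤ) (k : ℕ), P.real {x : Om | F^[n] x (i + k) ≠ 0} =
          P.real {x : Om | F^[n] x i ≠ 0} := by
        intro n i k
        have h1 := (hinv.iterate k).measureReal_preimage (hmeas n i).nullMeasurableSet
        rw [← h1]
        congr 1
        ext x
        show F^[n] x (i + k) ≠ 0 ↔ F^[n] (shift^[k] x) i ≠ 0
        rw [F_shift]
      intro n i
      rcases le_total 0 i with h | h
      · have := hstep n 0 i.toNat
        rw [zero_add, Int.toNat_of_nonneg h] at this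
        exact this
      · have := hstep n i (-i).toNat
        rw [Int.toNat_of_nonneg (by linarith), add_neg_cancel] at this
        exact this.symm
    intro f hf
    have hFm : ∀ n, Measurable F^[n] := fun n => (F_cont.iterate n).measurable
    have hint : ∀ n, ∫ x, f x ∂(P.map F^[n]) = ∫ x, f (F^[n] x) ∂P := fun n =>
      integral_map (hFm n).aemeasurable hf.aestronglyMeasurable
    simp only [hint]
    obtain ⟨C, hC⟩ := isCompact_univ.exists_bound_of_continuousOn (f := f) hf.continuousOn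
    have hC0 : 0 ≤ C := (norm_nonneg _).trans (hC 0 (Set.mem_univ _))
    rw [Metric.tendsto_atTop]
    intro ε hε
    -- a window
    obtain ⟨w, hw⟩ : ∃ w : ℕ, ∀ x : Om, (∀ i : ℤ, -(w : ℤ) ≤ i → i ≤ w → x i = 0) →
        |f x - f 0| < ε / 2 := by
      have hopen : IsOpen {x : Om | |f x - f 0| < ε / 2} :=
        isOpen_lt (continuous_abs.comp (hf.sub continuous_const)) continuous_const
      have hmem : (0 : Om) ∈ {x : Om | |f x - f 0| < ε / 2} := by
        show |f 0 - f 0| < ε / 2
        rw [sub_self, abs_zero]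
        positivity
      obtain ⟨I, u, hu, hIu⟩ := isOpen_pi_iff.1 hopen 0 hmem
      refine ⟨I.sup Int.natAbs, fun x hx => ?_⟩
      apply hIu
      intro i hi
      have h4 : i.natAbs ≤ I.sup Int.natAbs := Finset.le_sup (f := Int.natAbs) hi
      rw [hx i (by omega) (by omega)]
      exact (hu i hi).2
    obtain ⟨K, hK⟩ : ∃ K : ℕ, 2 * C * ((2 * w + 1) * (2 / (2 : ℝ) ^ K)) < ε / 2 := by
      have : Tendsto (fun K : ℕ => 2 * C * ((2 * w + 1) * (2 / (2 : ℝ) ^ K))) atTop
          (𝓝 (2 * C * ((2 * w + 1) * 0))) :=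
        ((Tendsto.div_atTop tendsto_const_nhds
          (tendsto_pow_atTop_atTop_of_one_lt (by norm_num))).const_mul _).const_mul _
      rw [mul_zero, mul_zero] at this
      exact (this.eventually (gt_mem_nhds (half_pos hε))).exists
    obtain ⟨n0, hn0⟩ := hz K
    refine ⟨n0, fun n hn => ?_⟩
    set D : Set Om := ⋃ i ∈ Finset.Icc (-(w : ℤ)) w, {x : Om | F^[n] x i ≠ 0} with hD
    have hDmeas : MeasurableSet D := by
      refine Finset.measurableSet_biUnion _ fun i _ => ?_
      have hc : Continuous fun x : Om => F^[n] x i := (continuous_apply i).comp (F_cont.iterate n)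
      exact (isOpen_ne_fun hc continuous_const).measurableSet
    have hDP : P.real D ≤ (2 * w + 1) * (2 / (2 : ℝ) ^ K) := by
      have h1 : P.real D ≤ ∑ i ∈ Finset.Icc (-(w : ℤ)) w, P.real {x : Om | F^[n] x i ≠ 0} :=
        measureReal_biUnion_finset_le _ _
      refine h1.trans ?_
      simp only [hzi n]
      rw [Finset.sum_const, Int.card_Icc, nsmul_eq_mul]
      have h2 : (((w : ℤ) + 1 - -(w : ℤ)).toNat : ℝ) = 2 * w + 1 := by
        have : ((w : ℤ) + 1 - -(w : ℤ)).toNat = 2 * w + 1 := by omega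
        rw [this]; push_cast; ring
      rw [h2]
      exact mul_le_mul_of_nonneg_left (hn0 n hn) (by positivity)
    have hpt : ∀ x : Om, |f (F^[n] x) - f 0| ≤ ε / 2 + 2 * C * D.indicator (fun _ => (1 : ℝ)) x := by
      intro x
      by_cases hx : x ∈ D
      · rw [Set.indicator_of_mem hx]
        have h1 := hC (F^[n] x) (Set.mem_univ _)
        have h2 := hC 0 (Set.mem_univ _)
        rw [Real.norm_eq_abs] at h1 h2
        have h3 := abs_sub (f (F^[n] x)) (f 0)
        linarith
      · rw [Set.indicator_of_notMem hx, mul_zero, add_zero]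
        refine (hw _ fun i h1 h2 => ?_).le
        by_contra hne
        exact hx (Set.mem_biUnion (Finset.mem_coe.2 (Finset.mem_Icc.2 ⟨h1, h2⟩)) hne)
    have hfi : Integrable (fun x => f (F^[n] x)) P := by
      refine Integrable.of_bound (hf.comp (F_cont.iterate n)).aestronglyMeasurable C ?_
      exact Filter.Eventually.of_forall fun x => hC _ (Set.mem_univ _)
    have hDi : Integrable (D.indicator (fun _ => (1 : ℝ))) P :=
      (integrable_const (1 : ℝ)).indicator hDmeas
    rw [Real.dist_eq]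
    have e1 : ∫ x, f (F^[n] x) ∂P - f 0 = ∫ x, (f (F^[n] x) - f 0) ∂P := by
      rw [integral_sub hfi (integrable_const _), integral_const, probReal_univ, one_smul]
    rw [e1]
    calc |∫ x, (f (F^[n] x) - f 0) ∂P| ≤ ∫ x, |f (F^[n] x) - f 0| ∂P := by
          rw [← Real.norm_eq_abs]
          exact norm_integral_le_integral_norm _
      _ ≤ ∫ x, (ε / 2 + 2 * C * D.indicator (fun _ => (1 : ℝ)) x) ∂P := by
          refine integral_mono (hfi.sub (integrable_const _)).abs
            ((integrable_const _).add (hDi.const_mul _)) hpt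
      _ = ε / 2 + 2 * C * P.real D := by
          rw [integral_add (integrable_const _) (hDi.const_mul _), integral_const, probReal_univ,
            one_smul, integral_const_mul, integral_indicator hDmeas]
          simp
      _ < ε := by
          have := mul_le_mul_of_nonneg_left hDP (by positivity : (0 : ℝ) ≤ 2 * C)
          linarith

end Pool.Agent.Results.MP_2e5000_an.WeaklyMixingXor
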